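import Pool.Agent.H918.G.Defs

/-! PROJECT PF: two branches with the same value agree locally. -/

set_option autoImplicit false

open Polynomial Filter Topology Metric
open scoped Polynomial.Bivariate

namespace Pool.Agent.H918.PF.H348

/-- `P(w, y)` as a finite sum with a uniform number of terms -/
theorem evalEval_sum (P : ℂ[X][Y]) (w y : ℂ) :
    evalEval w y P = ∑ n ∈ Finset.range (P.natDegree + 1), (P.coeff n).eval w * y ^ n := by
  rw [← map_evalRingHom_eval w y P,
    Polynomial.eval_eq_sum_range' (n := P.natDegree + 1)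
      (Nat.lt_succ_of_le Polynomial.natDegree_map_le)]
  apply Finset.sum_congr rfl
  intro n _
  rw [Polynomial.coeff_map, Polynomial.coe_evalRingHom]

/-- the difference quotient -/
noncomputable def quo (P : ℂ[X][Y]) (w y y' : ℂ) : ℂ :=
  ∑ n ∈ Finset.range (P.natDegree + 1), (P.coeff n).eval w *
    ∑ i ∈ Finset.range n, y ^ i * y' ^ (n - 1 - i)

theorem quo_mul (P : ℂ[X][Y]) (w y y' : ℂ) :
    quo P w y y' * (y - y') = evalEval w y P - evalEval w y' P := by
  rw [evalEval_sum, evalEval_sum, quo, Finset.sum_mul, ← Finset.sum_sub_distrib]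
  apply Finset.sum_congr rfl
  intro n _
  rw [mul_assoc, geom_sum₂_mul, mul_sub]

theorem quo_diag (P : ℂ[X][Y]) (w y : ℂ) :
    quo P w y y = (derivative (P.map (evalRingHom w))).eval y := by
  have h1 : (derivative (P.map (evalRingHom w))).eval y =
      ∑ n ∈ Finset.range (P.natDegree + 1), (P.coeff n).eval w * (n * y ^ (n - 1)) := by
    rw [Polynomial.derivative_eval, Polynomial.sum_over_range' (n := P.natDegree + 1)]
    · apply Finset.sum_congr rfl
      intro n _
      rw [Polynomial.coeff_map, Polynomial.coe_evalRingHom]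
      ring
    · intro n
      ring
    · exact Nat.lt_succ_of_le Polynomial.natDegree_map_le
  rw [h1, quo]
  apply Finset.sum_congr rfl
  intro n _
  congr 1
  have h2 : ∀ i ∈ Finset.range n, y ^ i * y ^ (n - 1 - i) = y ^ (n - 1) := by
    intro i hi
    rw [Finset.mem_range] at hi
    rw [← pow_add]
    congr 1
    omega
  rw [Finset.sum_congr rfl h2, Finset.sum_const, Finset.card_range, nsmul_eq_mul]

end Pool.Agent.H918.PF.H348

namespace Pool.Agent.H918.PF

/-- PF-UNIQ: two branches with the same value agree locally. -/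
theorem branch_unique {P : ℂ[X][Y]} {B₀ : Finset ℂ} (hs : SepOff P B₀) {U : Set ℂ} (hU : IsOpen U)
    {g g' : ℂ → ℂ} (hg : Branch P U g) (hg' : Branch P U g') {z : ℂ} (hz : z ∈ U) (hzB : z ∉ B₀)
    (h : g z = g' z) : ∀ᶠ w in 𝓝 z, g w = g' w := by
  have hUz : U ∈ 𝓝 z := hU.mem_nhds hz
  have hc : ContinuousAt g z := (hg.diff.differentiableAt hUz).continuousAt
  have hc' : ContinuousAt g' z := (hg'.diff.differentiableAt hUz).continuousAt
  have hq : ContinuousAt (fun w => H348.quo P w (g w) (g' w)) z := by
    unfold H348.quo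
    apply tendsto_finsetSum
    intro n _
    apply Tendsto.mul
    · exact (P.coeff n).continuous.continuousAt
    · apply tendsto_finsetSum
      intro i _
      exact (hc.pow i).mul (hc'.pow (n - 1 - i))
  have hroot : (P.map (evalRingHom z)).eval (g z) = 0 := by
    rw [map_evalRingHom_eval]
    exact hg.root z hz
  have hq0 : H348.quo P z (g z) (g' z) ≠ 0 := by
    rw [← h, H348.quo_diag]
    have h3 := (hs z hzB).eval₂_derivative_ne_zero (RingHom.id ℂ) (x := g z)
      (by rw [Polynomial.eval₂_id]; exact hroot)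
    rwa [Polynomial.eval₂_id] at h3
  filter_upwards [hUz, hq.eventually_ne hq0] with w hw hqw
  have h4 := H348.quo_mul P w (g w) (g' w)
  rw [hg.root w hw, hg'.root w hw, sub_zero] at h4
  rcases mul_eq_zero.1 h4 with h5 | h5
  · exact absurd h5 hqw
  · exact sub_eq_zero.1 h5

end Pool.Agent.H918.PF
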